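import Pool.Agent.Run7.h684.OS.Eq
import Pool.Agent.Run7.h684.Smp.Pow

/-!
# One-sided bounds for `M(x)` and `L(x)` at the points of a sparse set

`f` is `M` or `L`, `s = 1` or `s = -1`, and `Y` is a set of reals that meets `[x, x + C x^(1-η)]` for all large `x`,
for one `η > 0`; for instance `Y = {k^a}` for any real `a ≥ 1`. Only the values of one sign at the points of `Y` are
used, and only in the windows `[X, A X]`.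
-/

set_option autoImplicit false

open Filter Topology Set

namespace Pool.Agent.Results.MP_a499ba_nt.OneSidedSamples

/-- The Mertens function. -/
noncomputable def M (u : ℝ) : ℝ :=
  ∑ n ∈ Finset.Icc 1 ⌊u⌋₊, ((ArithmeticFunction.moebius n : ℤ) : ℝ)

/-- The summatory function of the Liouville function. -/
noncomputable def L (u : ℝ) : ℝ :=
  ∑ n ∈ Finset.Icc 1 ⌊u⌋₊, ((ArithmeticFunction.liouville n : ℤ) : ℝ)

/-- `F(u) = u^(1/2) (log log log u)^(5/4)`. -/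
noncomputable def F (u : ℝ) : ℝ := u ^ (1 / 2 : ℝ) * Real.log (Real.log (Real.log u)) ^ (5 / 4 : ℝ)

/-- The (distinct) zeros of `ζ` with `Re ρ ≥ σ` and `Im ρ > 0`. -/
def Zeros (σ : ℝ) : Type := {ρ : ℂ // riemannZeta ρ = 0 ∧ σ ≤ ρ.re ∧ 0 < ρ.im}

/-- The summands `m(ρ) / Im ρ`, `m(ρ)` the order of the zero. -/
noncomputable def term (σ : ℝ) (ρ : Zeros σ) : ℝ :=
  (analyticOrderNatAt riemannZeta ρ.val : ℝ) / ρ.val.im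

/-- `Z(σ)`, the sum of `m(ρ) / Im ρ` over the zeros `ρ` of `ζ` with `Re ρ ≥ σ` and `Im ρ > 0`. -/
noncomputable def zeroSum (σ : ℝ) : ℝ := ∑' ρ : Zeros σ, term σ ρ

/-- `ζ` has no zeros with real part greater than `σ`. -/
def ZeroFree (σ : ℝ) : Prop := ∀ z : ℂ, σ < z.re → riemannZeta z ≠ 0

/-- For some `C` and all large `x`, the interval `[x, x + C x^(1-η)]` meets `Y`. -/
def Gaps (η : ℝ) (Y : Set ℝ) : Prop :=
  ∃ C : ℝ, ∀ᶠ x : ℝ in atTop, ∃ y ∈ Y, x ≤ y ∧ y ≤ x + C * x ^ (1 - η)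

/-- At least `N` points `y` of `Y` with `X ≤ y ≤ A X` have `g y < h y`. -/
def Many (h g : ℝ → ℝ) (Y : Set ℝ) (A X N : ℝ) : Prop :=
  ∃ T : Finset ℝ, (∀ y ∈ T, y ∈ Y ∧ X ≤ y ∧ y ≤ A * X ∧ g y < h y) ∧ N ≤ T.card

lemma F_eventually (K : ℝ) {ε : ℝ} (hε : 0 < ε) : ∀ᶠ y : ℝ in atTop, K * F y ≤ y ^ (1 / 2 + ε) := by
  have t2 : Tendsto (fun y : ℝ => Real.log (Real.log (Real.log y))) atTop atTop :=
    Real.tendsto_log_atTop.comp (Real.tendsto_log_atTop.comp Real.tendsto_log_atTop)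
  filter_upwards [Pool.Agent.Results.MP_a499ba_nt.LiouvilleWindows.F_le (ε / 2) (by linarith),
    Run7.h684.Smp.ev_rpow |K| (show 1 / 2 + ε / 2 < 1 / 2 + ε by linarith), t2.eventually_ge_atTop 0,
    eventually_ge_atTop 0] with y h1 h2 h3 h4
  have h5 : 0 ≤ F y := by
    unfold F
    positivity
  calc K * F y ≤ |K| * F y := mul_le_mul_of_nonneg_right (le_abs_self K) h5
    _ ≤ |K| * y ^ (1 / 2 + ε / 2) := mul_le_mul_of_nonneg_left h1 (abs_nonneg K)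
    _ ≤ _ := h2

lemma many_F {h : ℝ → ℝ} {Y : Set ℝ} {K A ε : ℝ} (hε : 0 < ε) :
    ∀ᶠ X : ℝ in atTop, ∀ N : ℝ, Many h (fun y => y ^ (1 / 2 + ε)) Y A X N →
      Many h (fun y => K * F y) Y A X N := by
  obtain ⟨y0, hy0⟩ := eventually_atTop.1 (F_eventually K hε)
  filter_upwards [eventually_ge_atTop y0] with X hX N
  rintro ⟨T, h1, h2⟩
  refine ⟨T, fun y hy => ?_, h2⟩
  obtain ⟨g1, g2, g3, g4⟩ := h1 y hy
  exact ⟨g1, g2, g3, (hy0 y (hX.trans g2)).trans_lt g4⟩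

/-- **Main theorem.** -/
theorem result (f : ℝ → ℝ) (hf : f = M ∨ f = L) (s : ℝ) (hs : s = 1 ∨ s = -1) :
    (∀ (Y : Set ℝ) (η : ℝ), 0 < η → η ≤ 1 → Gaps η Y →
      (∀ σ A : ℝ, 1 / 2 < σ → σ < 1 → 1 < A → Summable (term σ) ∧ (Real.pi * zeroSum σ < Real.log A →
        (∀ ρ : ℂ, riemannZeta ρ = 0 → σ < ρ.re → ∀ θ ε : ℝ, θ < ρ.re → 0 < ε →
          ∀ᶠ X : ℝ in atTop, Many (fun y => s * f y) (fun y => y ^ θ) Y A X (X ^ (η - ε))) ∧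
        (ZeroFree σ ↔ ∀ ε : ℝ, 0 < ε → ∃ δ : ℝ, 0 < δ ∧ ∃ᶠ X : ℝ in atTop,
          ¬ Many (fun y => s * f y) (fun y => y ^ (σ + ε)) Y A X (X ^ (η - δ))))) ∧
      (∀ θ : ℝ, 1 / 2 ≤ θ →
        [ZeroFree θ,
          ∀ ε : ℝ, 0 < ε → ∀ᶠ y : ℝ in atTop, y ∈ Y → s * f y ≤ y ^ (θ + ε),
          ∀ A ε : ℝ, 1 < A → 0 < ε → ∃ δ : ℝ, 0 < δ ∧ ∃ᶠ X : ℝ in atTop,
            ¬ Many (fun y => s * f y) (fun y => y ^ (θ + ε)) Y A X (X ^ (η - δ))].TFAE) ∧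
      [∃ σ₀ : ℝ, σ₀ < 1 ∧ ZeroFree σ₀,
        ∃ τ : ℝ, τ < 1 ∧ ∀ᶠ y : ℝ in atTop, y ∈ Y → s * f y ≤ y ^ τ,
        ∃ A τ δ : ℝ, 1 < A ∧ τ < 1 ∧ 0 < δ ∧ ∃ᶠ X : ℝ in atTop,
          ¬ Many (fun y => s * f y) (fun y => y ^ τ) Y A X (X ^ (η - δ))].TFAE ∧
      [RiemannHypothesis,
        ∀ ε : ℝ, 0 < ε → ∀ᶠ y : ℝ in atTop, y ∈ Y → s * f y ≤ y ^ (1 / 2 + ε),
        ∀ A ε : ℝ, 1 < A → 0 < ε → ∃ δ : ℝ, 0 < δ ∧ ∃ᶠ X : ℝ in atTop,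
          ¬ Many (fun y => s * f y) (fun y => y ^ (1 / 2 + ε)) Y A X (X ^ (η - δ))].TFAE ∧
      ((∀ A : ℝ, 1 < A → ∃ K δ : ℝ, 0 < δ ∧ ∃ᶠ X : ℝ in atTop,
        ¬ Many (fun y => s * f y) (fun y => K * F y) Y A X (X ^ (η - δ))) → RiemannHypothesis) ∧
      ((∃ A K δ : ℝ, 1 < A ∧ 0 < δ ∧ ∃ᶠ X : ℝ in atTop,
        ¬ Many (fun y => s * f y) (fun y => K * F y) Y A X (X ^ (η - δ))) →
          ∃ σ₀ : ℝ, σ₀ < 1 ∧ ZeroFree σ₀)) ∧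
    ∀ a : ℝ, 1 ≤ a → Gaps (1 / a) (Set.range fun k : ℕ => (k : ℝ) ^ a) := by
  obtain ⟨b, hb, rfl⟩ : ∃ b : ℕ → ℝ, Run7.h684.OS.Src b ∧ f = Pool.Agent.W190.SF b := by
    rcases hf with h | h
    · exact ⟨_, Run7.h684.OS.src_mu, h⟩
    · exact ⟨_, Run7.h684.OS.src_la, h⟩
  refine ⟨?_, fun a ha => ⟨2 ^ a - 1, ?_⟩⟩
  · intro Y η hη hη1 hY
    obtain ⟨C, hC⟩ := hY
    have hrh := Pool.Agent.W190.rh_free
    have hT := hb.tfae (Y := Y) (η := η) (s := s) hη hη1 hC hs (θ := 1 / 2) le_rfl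
    have hQ := hb.quasi (Y := Y) (η := η) (s := s) hη hη1 hC hs
    have h2 : (∀ z : ℂ, 1 / 2 < z.re → riemannZeta z ≠ 0) ↔
        ∀ ε : ℝ, 0 < ε → ∀ᶠ y : ℝ in atTop, y ∈ Y → s * Pool.Agent.W190.SF b y ≤ y ^ (1 / 2 + ε) :=
      hT.out 0 1
    have h3 : (∀ z : ℂ, 1 / 2 < z.re → riemannZeta z ≠ 0) ↔
        ∀ A ε : ℝ, 1 < A → 0 < ε → ∃ δ : ℝ, 0 < δ ∧ ∃ᶠ X : ℝ in atTop,
          ¬ Many (fun y => s * Pool.Agent.W190.SF b y) (fun y => y ^ (1 / 2 + ε)) Y A X (X ^ (η - δ)) :=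
      hT.out 0 2
    have h4 : (∃ σ₀ : ℝ, σ₀ < 1 ∧ ZeroFree σ₀) ↔
        ∃ A τ δ : ℝ, 1 < A ∧ τ < 1 ∧ 0 < δ ∧ ∃ᶠ X : ℝ in atTop,
          ¬ Many (fun y => s * Pool.Agent.W190.SF b y) (fun y => y ^ τ) Y A X (X ^ (η - δ)) :=
      hQ.out 0 2
    refine ⟨fun σ A h1 h2 hA1 => ⟨Pool.Agent.N739.OW.hsum_summable h1 h2, fun hA => ⟨?_, ?_⟩⟩,
      fun θ hθ => hb.tfae hη hη1 hC hs hθ, hQ, ?_, ?_, ?_⟩
    · intro ρ hρ0 hρ1 θ ε hθ hε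
      exact hb.many hη hη1 hC hs h1 h2 hA1 hA ⟨ρ, hρ0, hρ1⟩ ⟨ρ, hρ0, hθ⟩ hε
    · exact hb.fixed hη hη1 hC hs h1 h2 hA1 hA
    · tfae_have 1 ↔ 2 := hrh.trans h2
      tfae_have 1 ↔ 3 := hrh.trans h3
      tfae_finish
    · intro h
      refine hrh.2 (h3.2 fun A ε hA hε => ?_)
      obtain ⟨K, δ, hδ, h5⟩ := h A hA
      refine ⟨δ, hδ, (h5.and_eventually (many_F (K := K) (A := A) (Y := Y)
        (h := fun y => s * Pool.Agent.W190.SF b y) hε)).mono ?_⟩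
      rintro X ⟨g1, g2⟩ g3
      exact g1 (g2 _ g3)
    · rintro ⟨A, K, δ, hA, hδ, h5⟩
      refine h4.2 ⟨A, 1 / 2 + 1 / 4, δ, hA, by norm_num, hδ, (h5.and_eventually (many_F (K := K) (A := A)
        (Y := Y) (h := fun y => s * Pool.Agent.W190.SF b y) (show (0 : ℝ) < 1 / 4 by norm_num))).mono ?_⟩
      rintro X ⟨g1, g2⟩ g3
      exact g1 (g2 _ g3)
  · filter_upwards [eventually_ge_atTop 1] with x hx using Run7.h684.Smp.pow_gap ha x hx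

end Pool.Agent.Results.MP_a499ba_nt.OneSidedSamples
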