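import Pool.Agent.Run7.h311.OL.Zl

/-!
# The sizes of the residues of `1/ζ`: large deviations in both directions, without the Riemann hypothesis

In the explicit formula `M(x) = ∑ x^ρ / (ρ ζ'(ρ)) + ...` the coefficients are the residues `1/ζ'(ρ)`; their sizes are
behind the conjectured exponent `5/4` in the oscillation of `M(x)` (Gonek; Ng 2004). Everything here is
unconditional. Write `Λ = log T / (V² log log T)` and call an ordinate `t` in `(T, 2T]` isolated if `1/2 + it` is a
simple zero of zeta at distance at least `d / log T` from all other zeros in the critical strip.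

(1) There are `d, c, C > 0` such that for all large `T` and all `V` with `√(log log T) ≤ V ≤ c √(log T / log log T)`
at least `T exp(-C V² / log Λ)` isolated `t` have a residue with `|1/ζ'(1/2 + it)| ≥ e^V / log T`, and at least as many
have a residue with `|1/ζ'(1/2 + it)| ≤ e^(-V) / log T`.

(2) For every `ε > 0` there are `d, c, C > 0` such that for all large `T`, uniformly in `P` with
`P log log T ≤ c log T`, unimodular numbers `z_p`, `V` with `√(log log T) ≤ V ≤ c √(log T / log log T)` and all real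
targets `|x| ≤ V`, at least `T exp(-C (V² / log Λ + P log log log T))` isolated `t` satisfy
`| log |ζ'(1/2 + it)| - log log T - log |∏_{p ≤ P} (1 - p ^ (-1/2-it))^(-1)| - x | ≤ C √(log log T)` and
`|p ^ (it) - z_p| ≤ ε` for all primes `p ≤ P`.

Proof: the resonator is a product of about `V² / log Λ` short factors `1 + μ ∑_{p ∈ B} p ^ (-s)` over disjoint blocks of
primes between `(log T)²` and `(log T)^K`, `K` of order `Λ`, times a polynomial that detects the phases. Relative to its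
square the sum of `p ^ (-1/2-iγ)` over the isolated simple zeros has mean `x` and variance `O(log log T)`, because the
sampling inequality at isolated simple zeros and the pair correlation kernel (starting library `Q97/UM`) are nonnegative
kernels for which the square of every short Dirichlet polynomial has the expected mean; the approximation of
`log |ζ'(ρ)|` by the sum over primes holds relative to every Dirichlet polynomial; and the fourth power mean of the
resonator over the zeros exceeds the square of the second by a bounded factor for every block.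
-/

set_option autoImplicit false

open Filter Topology Complex

namespace Pool.Agent.Results.MP_a499ba_nt.SizesOfResidues

/-- the derivative of zeta at the point `1/2 + it` -/
noncomputable def dz (t : ℝ) : ℂ := deriv riemannZeta (1 / 2 + t * I)

/-- the residue of `1/ζ` at a simple zero `1/2 + it` (see the first part of `result`) -/
noncomputable def residue (t : ℝ) : ℂ := 1 / dz t

/-- the logarithm of the modulus of the Euler product over the primes `p ≤ P` at `1/2 + it` -/
noncomputable def eulerLog (P : ℕ) (t : ℝ) : ℝ :=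
  -∑ p ∈ (Finset.Icc 1 P).filter Nat.Prime, Real.log ‖1 - (p : ℂ) ^ (-(1 / 2 + t * I))‖

/-- the ordinates `t` in `(T, 2T]` of the simple zeros `1/2 + it` of zeta at distance at least
`d / log T` from all other zeros of zeta in the open critical strip -/
def isolated (d T : ℝ) : Set ℝ :=
  {t : ℝ | T < t ∧ t ≤ 2 * T ∧ riemannZeta (1 / 2 + t * I) = 0 ∧ dz t ≠ 0 ∧
    ∀ s : ℂ, riemannZeta s = 0 → 0 < s.re → s.re < 1 → s ≠ 1 / 2 + t * I →
      d / Real.log T ≤ ‖s - (1 / 2 + t * I)‖}

/-- the isolated zeros at which the logarithm of the modulus of the derivative, without the primes `p ≤ P` and divided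
by `log T`, is within `D` of `x`, and `p ^ (it)` is within `ε` of `z_p` for all primes `p ≤ P` -/
def pattern (D ε : ℝ) (P : ℕ) (z : ℕ → ℂ) (x d T : ℝ) : Set ℝ :=
  {t ∈ isolated d T | |Real.log ‖dz t‖ - Real.log (Real.log T) - eulerLog P t - x| ≤ D ∧
    ∀ p : ℕ, p.Prime → p ≤ P → ‖(p : ℂ) ^ (t * I) - z p‖ ≤ ε}

/-- the isolated zeros whose residue has modulus at least `e^V / log T` -/
def large (d V T : ℝ) : Set ℝ := {t ∈ isolated d T | Real.exp V / Real.log T ≤ ‖residue t‖}

/-- the isolated zeros whose residue has modulus at most `e^(-V) / log T` -/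
def small (d V T : ℝ) : Set ℝ := {t ∈ isolated d T | ‖residue t‖ ≤ Real.exp (-V) / Real.log T}

open Pool.Agent.Q97.UM Run7.h311.LW Run7.h311.OL

lemma point {s : ℂ} (h : s.re = 1 / 2) : (1 / 2 + (s.im : ℂ) * I : ℂ) = s := by
  apply Complex.ext <;> simp [h]

lemma isolated_finite (d : ℝ) {T : ℝ} (hT : 1 ≤ T) : (isolated d T).Finite := by
  have h1 : isolated d T ⊆ Complex.im '' ((H370.Zf riemannZeta T (2 * T) : Finset ℂ) : Set ℂ) := by
    rintro t ⟨h1, h2, h3, -, -⟩
    refine ⟨1 / 2 + t * I, ?_, by simp⟩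
    rw [Finset.mem_coe, H370.mem_Zf H370.good_zeta hT]
    exact ⟨by simp, by norm_num, by simpa using h1, by simpa using h2, h3⟩
  exact ((Finset.finite_toSet _).image _).subset h1

lemma mem_isolated {d T : ℝ} (hd : d ≤ 1) (hT : 16 ≤ T) {s : ℂ} (hs : s ∈ ZI d T) :
    s.im ∈ isolated d T := by
  have hre := (Pool.Agent.Q98.UM.mem_ZI hs).2.1
  have hmz := (Pool.Agent.Q98.UM.mem_ZI hs).2.2
  have hz := (H370.mem_Zf H370.good_zeta (by linarith : 1 ≤ T)).1 (Pool.Agent.Q98.UM.mem_ZI hs).1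
  obtain ⟨-, -, h1, h2, h0⟩ := hz
  have e := point hre
  refine ⟨h1, h2, by rw [e]; exact h0, ?_, ?_⟩
  · unfold dz
    rw [e]
    exact Pool.Agent.Q98.UM.deriv_ne hre hmz
  · intro s' h3 h4 h5 h6
    rw [e] at h6 ⊢
    unfold ZI at hs
    rw [Finset.mem_filter] at hs
    have hlog : 1 ≤ Real.log T := by
      rw [Real.le_log_iff_exp_le (by linarith)]
      linarith [Real.exp_one_lt_d9]
    have hdl : d / Real.log T ≤ 1 := by
      rw [div_le_one (by linarith)]
      linarith
    by_cases h7 : s' ∈ ZD T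
    · have h8 := hs.2.2.2 s' h7 h6
      rw [norm_sub_rev] at h8
      exact h8
    · have h8 : ¬ (T / 16 < s'.im ∧ s'.im ≤ 16 * T) := fun h => h7 (by
        unfold ZD
        rw [H370.mem_Zf H370.good_zeta (by linarith : 1 ≤ T / 16)]
        exact ⟨h4, h5, h.1, h.2, h3⟩)
      have h9 : 1 ≤ |(s' - s).im| := by
        rw [Complex.sub_im]
        by_cases h10 : T / 16 < s'.im
        · have h11 : 16 * T < s'.im := by
            by_contra h12
            exact h8 ⟨h10, by linarith⟩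
          rw [abs_of_nonneg (by linarith)]
          linarith
        · rw [abs_of_nonpos (by linarith)]
          linarith
      exact hdl.trans (h9.trans (Complex.abs_im_le_norm _))

lemma mem_pattern {D ε : ℝ} {P : ℕ} {z : ℕ → ℂ} {x d T : ℝ} (hd : d ≤ 1) (hT : 16 ≤ T) {s : ℂ}
    (hs : s ∈ ZE D ε P z x d T) : s.im ∈ pattern D ε P z x d T := by
  classical
  unfold ZE at hs
  rw [Finset.mem_filter] at hs
  have e : Real.log ‖dz s.im‖ - Real.log (Real.log T) - eulerLog P s.im = AA P T s := by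
    unfold AA dz
    rw [point (Pool.Agent.Q98.UM.mem_ZI hs.1).2.1]
    rfl
  refine ⟨mem_isolated hd hT hs.1, ?_, hs.2.2⟩
  rw [e]
  exact hs.2.1

lemma im_inj {D ε : ℝ} {P : ℕ} {z : ℕ → ℂ} {x d T : ℝ} : Set.InjOn Complex.im (ZE D ε P z x d T : Set ℂ) := by
  classical
  intro s hs s' hs' h
  unfold ZE at hs hs'
  rw [Finset.mem_coe, Finset.mem_filter] at hs hs'
  exact Complex.ext ((Pool.Agent.Q98.UM.mem_ZI hs.1).2.1.trans (Pool.Agent.Q98.UM.mem_ZI hs'.1).2.1.symm) h

lemma pattern_finite {D ε : ℝ} {P : ℕ} {z : ℕ → ℂ} {x d T : ℝ} (hT : 1 ≤ T) : (pattern D ε P z x d T).Finite :=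
  (isolated_finite d hT).subset fun _ ht => ht.1

lemma card_le {D ε : ℝ} {P : ℕ} {z : ℕ → ℂ} {x d T : ℝ} (hd : d ≤ 1) (hT : 16 ≤ T) :
    (ZE D ε P z x d T).card ≤ (pattern D ε P z x d T).ncard := by
  rw [← Set.ncard_coe_finset, ← im_inj.ncard_image]
  refine Set.ncard_le_ncard ?_ (pattern_finite (by linarith))
  rintro t ⟨s, hs, rfl⟩
  exact mem_pattern hd hT hs

lemma patterns (ε : ℝ) (hε : 0 < ε) : ∃ d c C : ℝ, 0 < d ∧ 0 < c ∧ 0 < C ∧
    ∀ᶠ T : ℝ in atTop, ∀ (P : ℕ) (z : ℕ → ℂ) (x V : ℝ),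
      P * Real.log (Real.log T) ≤ c * Real.log T → (∀ p, ‖z p‖ = 1) →
      Real.sqrt (Real.log (Real.log T)) ≤ V → V ≤ c * Real.sqrt (Real.log T / Real.log (Real.log T)) → |x| ≤ V →
      (pattern (C * Real.sqrt (Real.log (Real.log T))) ε P z x d T).Finite ∧
      T * Real.exp (-(C * (V ^ 2 / Real.log (Real.log T / (V ^ 2 * Real.log (Real.log T))) +
        P * Real.log (Real.log (Real.log T))))) ≤
        ((pattern (C * Real.sqrt (Real.log (Real.log T))) ε P z x d T).ncard : ℝ) := by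
  obtain ⟨d, c, C, hd, hd1, hc, hC, h⟩ := zld hε
  refine ⟨d, c, C, hd, hc, hC, ?_⟩
  filter_upwards [h, eventually_ge_atTop 16] with T h hT P z x V hP hz hV1 hV2 hx
  refine ⟨pattern_finite (by linarith), (h P z x V hP hz hV1 hV2 hx).trans ?_⟩
  exact_mod_cast card_le hd1 hT

lemma sizes : ∃ d c C : ℝ, 0 < d ∧ 0 < c ∧ 0 < C ∧ ∀ᶠ T : ℝ in atTop, ∀ V : ℝ,
    Real.sqrt (Real.log (Real.log T)) ≤ V → V ≤ c * Real.sqrt (Real.log T / Real.log (Real.log T)) →
    (large d V T).Finite ∧ (small d V T).Finite ∧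
    T * Real.exp (-(C * (V ^ 2 / Real.log (Real.log T / (V ^ 2 * Real.log (Real.log T)))))) ≤
      ((large d V T).ncard : ℝ) ∧
    T * Real.exp (-(C * (V ^ 2 / Real.log (Real.log T / (V ^ 2 * Real.log (Real.log T)))))) ≤
      ((small d V T).ncard : ℝ) := by
  obtain ⟨d, c, C, hd, hc, hC, h⟩ := patterns 1 one_pos
  obtain ⟨R, hR⟩ : ∃ R, R = 1 + C := ⟨_, rfl⟩
  have hR1 : 1 ≤ R := by rw [hR]; linarith
  have hR0 : 0 < R := by linarith
  refine ⟨d, min (c / R) (1 / (2 * R ^ 2)), 2 * R ^ 2 * C, hd, by positivity, by positivity, ?_⟩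
  have tL : Tendsto Real.log atTop atTop := Real.tendsto_log_atTop
  have tLL : Tendsto (fun T => Real.log (Real.log T)) atTop atTop := tL.comp tL
  filter_upwards [h, tL.eventually_gt_atTop 0, tLL.eventually_ge_atTop 1, eventually_ge_atTop (16 : ℝ)] with T h hL0
    hll1 hT16 V hV1 hV2
  have hfinL : (large d V T).Finite := (isolated_finite d (by linarith)).subset fun _ ht => ht.1
  have hfinS : (small d V T).Finite := (isolated_finite d (by linarith)).subset fun _ ht => ht.1
  obtain ⟨L, hLd⟩ : ∃ L, L = Real.log T := ⟨_, rfl⟩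
  obtain ⟨l, hl⟩ : ∃ l, l = Real.log L := ⟨_, rfl⟩
  rw [← hLd] at h hL0 hll1 hV1 hV2 ⊢
  rw [← hl] at h hll1 hV1 hV2 ⊢
  have hl0 : 0 < l := by linarith
  have hT0 : 0 < T := by linarith
  obtain ⟨s, hs⟩ : ∃ s, s = Real.sqrt (L / l) := ⟨_, rfl⟩
  rw [← hs] at h hV2
  have hs0 : 0 ≤ s := by rw [hs]; exact Real.sqrt_nonneg _
  have hs2 : s ^ 2 = L / l := by rw [hs]; exact Real.sq_sqrt (by positivity)
  have hV0 : 0 < V := lt_of_lt_of_le (Real.sqrt_pos.2 hl0) hV1
  have hV3 : V ≤ c / R * s := hV2.trans (mul_le_mul_of_nonneg_right (min_le_left _ _) hs0)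
  have hV4 : V ≤ 1 / (2 * R ^ 2) * s := hV2.trans (mul_le_mul_of_nonneg_right (min_le_right _ _) hs0)
  obtain ⟨W, hW⟩ : ∃ W, W = R * V := ⟨_, rfl⟩
  have hW0 : 0 < W := by rw [hW]; positivity
  have hVW : V ≤ W := by rw [hW]; exact le_mul_of_one_le_left hV0.le hR1
  have hW1 : Real.sqrt l ≤ W := hV1.trans hVW
  have hW2 : W ≤ c * s := by
    rw [hW]
    calc R * V ≤ R * (c / R * s) := mul_le_mul_of_nonneg_left hV3 hR0.le
      _ = c * s := by field_simp
  have hWV : V + C * Real.sqrt l ≤ W := by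
    rw [hW, hR]
    have := mul_le_mul_of_nonneg_left hV1 hC.le
    linarith
  -- the exponents
  obtain ⟨X, hX⟩ : ∃ X, X = L / (V ^ 2 * l) := ⟨_, rfl⟩
  have hX0 : 0 < X := by rw [hX]; positivity
  have hXW : L / (W ^ 2 * l) = X / R ^ 2 := by
    rw [hX, hW]
    field_simp
  have hXR : (2 * R ^ 2) ^ 2 ≤ X := by
    have h1 := pow_le_pow_left₀ hV0.le hV4 2
    rw [mul_pow, hs2] at h1
    rw [hX, le_div_iff₀ (by positivity)]
    calc (2 * R ^ 2) ^ 2 * (V ^ 2 * l) ≤ (2 * R ^ 2) ^ 2 * (((1 / (2 * R ^ 2)) ^ 2 * (L / l)) * l) := by gcongr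
      _ = L := by field_simp
  have hX1 : 1 < X := by nlinarith [one_le_pow₀ hR1 (n := 2)]
  have hlogX : 0 < Real.log X := Real.log_pos hX1
  have hlogXR : 1 / 2 * Real.log X ≤ Real.log (X / R ^ 2) := by
    have h1 : Real.sqrt X ≤ X / R ^ 2 := by
      rw [le_div_iff₀ (by positivity)]
      have h2 : R ^ 2 ≤ Real.sqrt X := by
        apply Real.le_sqrt_of_sq_le
        nlinarith [sq_nonneg (R ^ 2)]
      calc Real.sqrt X * R ^ 2 ≤ Real.sqrt X * Real.sqrt X := mul_le_mul_of_nonneg_left h2 (Real.sqrt_nonneg _)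
        _ = X := Real.mul_self_sqrt hX0.le
    have h2 := Real.log_le_log (Real.sqrt_pos.2 hX0) h1
    rw [Real.log_sqrt hX0.le] at h2
    linarith
  have hexp : C * (W ^ 2 / Real.log (L / (W ^ 2 * l)) + ((0 : ℕ) : ℝ) * Real.log l) ≤
      2 * R ^ 2 * C * (V ^ 2 / Real.log (L / (V ^ 2 * l))) := by
    rw [hXW, ← hX]
    have h1 : W ^ 2 / Real.log (X / R ^ 2) ≤ W ^ 2 * (2 / Real.log X) := by
      rw [← mul_one_div]
      refine mul_le_mul_of_nonneg_left ?_ (by positivity)
      rw [div_le_div_iff₀ (by linarith) hlogX]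
      linarith
    calc C * (W ^ 2 / Real.log (X / R ^ 2) + ((0 : ℕ) : ℝ) * Real.log l) = C * (W ^ 2 / Real.log (X / R ^ 2)) := by
          simp
      _ ≤ C * (W ^ 2 * (2 / Real.log X)) := mul_le_mul_of_nonneg_left h1 hC.le
      _ = 2 * R ^ 2 * C * (V ^ 2 / Real.log X) := by rw [hW]; ring
  have key : ∀ x : ℝ, |x| ≤ W →
      T * Real.exp (-(2 * R ^ 2 * C * (V ^ 2 / Real.log (L / (V ^ 2 * l))))) ≤
        ((pattern (C * Real.sqrt l) 1 0 (fun _ => 1) x d T).ncard : ℝ) := fun x hx =>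
    (mul_le_mul_of_nonneg_left (Real.exp_le_exp.2 (neg_le_neg hexp)) hT0.le).trans
      (h 0 (fun _ => 1) x W (by simp; positivity) (by simp) hW1 hW2 hx).2
  have hsz : ∀ x t : ℝ, t ∈ pattern (C * Real.sqrt l) 1 0 (fun _ => 1) x d T → t ∈ isolated d T ∧ 0 < ‖dz t‖ ∧
      |Real.log ‖dz t‖ - l - x| ≤ C * Real.sqrt l := by
    intro x t ht
    have e4 : eulerLog 0 t = 0 := by simp [eulerLog]
    have h2 := ht.2.1
    rw [e4, sub_zero, ← hLd, ← hl] at h2
    exact ⟨ht.1, norm_pos_iff.2 ht.1.2.2.2.1, h2⟩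
  have hres : ∀ t : ℝ, 0 < ‖dz t‖ → ‖residue t‖ = Real.exp (-Real.log ‖dz t‖) := by
    intro t ht
    rw [Real.exp_neg, Real.exp_log ht]
    unfold residue
    rw [norm_div, norm_one, one_div]
  have hLe : L = Real.exp l := by rw [hl, Real.exp_log hL0]
  refine ⟨hfinL, hfinS, ?_, ?_⟩
  · refine (key (-W) (by rw [abs_neg, abs_of_pos hW0])).trans ?_
    exact_mod_cast Set.ncard_le_ncard (fun t ht => by
      obtain ⟨h1, h2, h3⟩ := hsz _ t ht
      refine ⟨h1, ?_⟩
      rw [hres t h2, ← hLd, hLe, ← Real.exp_sub]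
      apply Real.exp_le_exp.2
      linarith [(abs_le.1 h3).2]) hfinL
  · refine (key W (by rw [abs_of_pos hW0])).trans ?_
    exact_mod_cast Set.ncard_le_ncard (fun t ht => by
      obtain ⟨h1, h2, h3⟩ := hsz _ t ht
      refine ⟨h1, ?_⟩
      rw [hres t h2, ← hLd, hLe, ← Real.exp_sub]
      apply Real.exp_le_exp.2
      linarith [(abs_le.1 h3).1]) hfinS

lemma residue_limit {t : ℝ} (h0 : riemannZeta (1 / 2 + t * I) = 0) (h1 : dz t ≠ 0) :
    Tendsto (fun s : ℂ => (s - (1 / 2 + t * I)) / riemannZeta s) (𝓝[≠] (1 / 2 + t * I : ℂ)) (𝓝 (residue t)) := by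
  have hne : (1 / 2 + t * I : ℂ) ≠ 1 := by
    intro h
    have := congrArg Complex.re h
    norm_num at this
  have hd := (differentiableAt_riemannZeta hne).hasDerivAt
  rw [hasDerivAt_iff_tendsto_slope] at hd
  have h2 := (hd.inv₀ h1)
  have e : residue t = (deriv riemannZeta (1 / 2 + t * I))⁻¹ := one_div _
  rw [e]
  refine h2.congr fun s => ?_
  rw [slope_def_field, h0, sub_zero, inv_div]

/-- **the sizes of the residues of `1/ζ` at isolated simple zeros: large deviations in the full range, unconditionally,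
with prescribed phases of the small primes** -/
theorem result :
    (∀ t : ℝ, riemannZeta (1 / 2 + t * I) = 0 → dz t ≠ 0 →
      Tendsto (fun s : ℂ => (s - (1 / 2 + t * I)) / riemannZeta s) (𝓝[≠] (1 / 2 + t * I : ℂ)) (𝓝 (residue t))) ∧
    (∃ d c C : ℝ, 0 < d ∧ 0 < c ∧ 0 < C ∧ ∀ᶠ T : ℝ in atTop, ∀ V : ℝ,
      Real.sqrt (Real.log (Real.log T)) ≤ V → V ≤ c * Real.sqrt (Real.log T / Real.log (Real.log T)) →
      (large d V T).Finite ∧ (small d V T).Finite ∧
      T * Real.exp (-(C * (V ^ 2 / Real.log (Real.log T / (V ^ 2 * Real.log (Real.log T)))))) ≤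
        ((large d V T).ncard : ℝ) ∧
      T * Real.exp (-(C * (V ^ 2 / Real.log (Real.log T / (V ^ 2 * Real.log (Real.log T)))))) ≤
        ((small d V T).ncard : ℝ)) ∧
    (∀ ε : ℝ, 0 < ε → ∃ d c C : ℝ, 0 < d ∧ 0 < c ∧ 0 < C ∧
      ∀ᶠ T : ℝ in atTop, ∀ (P : ℕ) (z : ℕ → ℂ) (x V : ℝ),
        P * Real.log (Real.log T) ≤ c * Real.log T → (∀ p, ‖z p‖ = 1) →
        Real.sqrt (Real.log (Real.log T)) ≤ V → V ≤ c * Real.sqrt (Real.log T / Real.log (Real.log T)) → |x| ≤ V →
        (pattern (C * Real.sqrt (Real.log (Real.log T))) ε P z x d T).Finite ∧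
        T * Real.exp (-(C * (V ^ 2 / Real.log (Real.log T / (V ^ 2 * Real.log (Real.log T))) +
          P * Real.log (Real.log (Real.log T))))) ≤
          ((pattern (C * Real.sqrt (Real.log (Real.log T))) ε P z x d T).ncard : ℝ)) :=
  ⟨fun _ h0 h1 => residue_limit h0 h1, sizes, patterns⟩

end Pool.Agent.Results.MP_a499ba_nt.SizesOfResidues
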